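import Pool.Agent.Helper87.SL.Win
import Pool.Agent.Helper22.NEAR.Defs
import Pool.Agent.Helper27.T5.Scale

/-!
# T5a, block NEAR: lines NE6 and NE7

`Bw_lt`: size of the windows.  `pp_reg`: `hL` for regular windows in all contexts.
-/

set_option autoImplicit false

namespace Pool.Agent.Helper87.NEAR

open Finset Pool.Agent.Helper27.T4 Pool.Agent.Helper27.T5 Pool.Agent.Helper22.HW
  Pool.Agent.Helper22.SL Pool.Agent.Helper57.T5 Pool.Agent.Helper11.T5 Pool.Agent.Helper63.T5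
  Pool.Agent.Helper39.T5 Pool.Agent.Helper22.NEAR Pool.Agent.Helper30.T5
open Pool.Agent.Helper5.ET (Nj era)

/-- **NE6**: size of the windows -/
theorem Bw_lt (k : ℕ) : ∃ j0 : ℕ, ∀ j l s, j0 ≤ j → era l = j → used (k + 2) l → s ≤ k →
    ∀ w : Key → ℕ, ∀ b ∈ Bw (k + 2) k l s w, (b : ℝ) <
      Real.exp ((W (k + 2) j (s + 1) : ℝ) * lam + (W (k + 2) j (s + 1) : ℝ) / 10000) := by
  obtain ⟨j1, h1⟩ := exists_lateC (k + 2) k le_rfl
    (10000 * Real.log (2000074 * (spq (k + 1) : ℝ)))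
  obtain ⟨j2, h2⟩ := exists_double (k + 2) k le_rfl
  refine ⟨max j1 j2, fun j l s hj he hu hs w b hb => ?_⟩
  have hL := h1 j (le_trans (le_max_left _ _) hj)
  obtain ⟨hb10, hd⟩ := h2 l hu (by rw [he]; exact le_trans (le_max_right _ _) hj)
  have hera := (era_add_two hu hb10 (by omega)).1
  have hr : 8 ≤ rt (k + 2) (era l) :=
    (by norm_num : 8 ≤ 2 ^ 10).trans (rt_ge hb10 (by omega))
  have hlt := Pool.Agent.Helper87.SL.Bw_lt hd le_rfl hr hera hs hb
  have hW := hL.2 (s + 1) (by omega)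
  have hspq : (1 : ℝ) ≤ spq (k + 1) := by exact_mod_cast spq_pos _
  have e1 : (b : ℝ) < (2000074 * (spq (k + 1) : ℝ)) * (10 ^ 6) ^ W (k + 2) j (s + 1) := by
    have e2 : spq (s + 1) ≤ spq (k + 1) := Pool.Agent.Helper87.SL.spq_mono (by omega) (by omega)
    have e3 : ((spq (s + 1) : ℕ) : ℝ) ≤ spq (k + 1) := by exact_mod_cast e2
    rw [he] at hlt
    have e4 : (b : ℝ) < ((2000074 * spq (s + 1) * (10 ^ 6) ^ W (k + 2) j (s + 1) : ℕ) : ℝ) := by
      exact_mod_cast hlt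
    have hpw : (0 : ℝ) ≤ (10 ^ 6) ^ W (k + 2) j (s + 1) := by positivity
    calc (b : ℝ) < ((2000074 * spq (s + 1) * (10 ^ 6) ^ W (k + 2) j (s + 1) : ℕ) : ℝ) := e4
      _ = (2000074 * (spq (s + 1) : ℝ)) * (10 ^ 6) ^ W (k + 2) j (s + 1) := by push_cast; ring
      _ ≤ (2000074 * (spq (k + 1) : ℝ)) * (10 ^ 6) ^ W (k + 2) j (s + 1) :=
          mul_le_mul_of_nonneg_right (by linarith) hpw
  refine e1.trans_le ?_
  have hp : (0 : ℝ) < (2000074 * (spq (k + 1) : ℝ)) * (10 ^ 6) ^ W (k + 2) j (s + 1) := by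
    positivity
  rw [← Real.exp_log hp, Real.log_mul (by positivity) (by positivity), Real.log_pow]
  apply Real.exp_le_exp.2
  have q4 : Real.log (10 ^ 6) = lam := rfl
  rw [q4]
  linarith

/-- **NE7**: hL for regular windows -/
theorem pp_reg (k : ℕ) : ∃ j0 : ℕ, ∀ j t l' l, j0 ≤ j → PD (k + 2) k j (t + 1) l' l →
    ef (k + 2) (t + 1) l' = ef (k + 2) (t + 1) l → CaseReg k j t l' l → ∀ w : Key → ℕ,
    RegE (k + 2) k j l (sb (k + 2) k j t l' l) w → RegE (k + 2) k j l' (sb (k + 2) k j t l' l) w →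
    ∀ c ∈ Jx (k + 2) j t l' l,
      PPx (k + 2) k j t l' l w c ≤ Real.exp (-(dReg k j t l' l)) := by
  obtain ⟨j1, h1⟩ := exists_lateC (k + 2) k le_rfl (Pool.Agent.Helper87.SL.cW k 0)
  obtain ⟨j2, h2⟩ := exists_double (k + 2) k le_rfl
  refine ⟨max j1 j2, fun j t l' l hj h hc hcase w hR hR' c hcJ => ?_⟩
  have hL := h1 j (le_trans (le_max_left _ _) hj)
  obtain ⟨hb10', hd'⟩ := h2 l' h.u' (by rw [h.el']; exact le_trans (le_max_right _ _) hj)
  have hera := (era_add_two h.u' hb10' (by omega)).1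
  -- the instance
  have hF1 : Nj (ef (k + 2) (t + 1) l) ∣ FF (k + 2) l t := dvd_rfl
  have hF2 : FF (k + 2) l t ∣ 4 * Nj (ef (k + 2) (t + 1) l) := dvd_mul_left _ _
  have hM : Mt' (PN (k + 2) k j t l' l) (k + 2) k j (t + 1) l' l := h.mtD hF1 hF2
  have hP : (PN (k + 2) k j t l' l).Ok (Mk (k + 2)) := h.okD hL.1 hF1 hF2
  have hF0 : (PN (k + 2) k j t l' l).F 0 = Nj (ef (k + 2) (t + 1) l) := rfl
  have hcE : c.2.1.Coprime (pj j) := (mem_filter.1 hcJ).2
  have hX := Pool.Agent.Helper39.SL.tg_XT hP (I := In j l' l) (D := DD (k + 2) j t l' l)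
    (κ₂ := c.2.2.1) (n := bm (k + 2) j t l' * c.2.2.2) (cl := clx c)
    (Ir := IrD (k + 2) j (t + 1) l' (In j l' l)) (pow_pos (pj_pos j) _) (hM.hF0 h hF0)
    (by
      have e : (PN (k + 2) k j t l' l).M' * (PN (k + 2) k j t l' l).L0 = bm (k + 2) j t l' := by
        unfold bm
        rw [← h.el]
        rfl
      rw [e]
      exact dvd_mul_right _ _)
    (fun r hr x => hM.hIr h hc hF0 hcE _ hr x)
  have hI : ((nTx (k + 2) k j t l' l c : ℕ) : ℝ) ≤
      Real.exp (0 + ((l - l' : ℕ) : ℝ) * Real.log (pj j) / 2) := by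
    have e1 : nTx (k + 2) k j t l' l c ≤ In j l' l := Pool.Agent.Helper39.SL.nT_le _ _ _ _ _ _
    have e2 : ((In j l' l : ℕ) : ℝ) = Real.exp ((((l - l') / 2 : ℕ) : ℝ) * Real.log (pj j)) := by
      have := Pool.Agent.Helper87.SL.log_Nj_pow ((l - l') / 2) 1 j
      rw [one_mul, Nat.cast_one, one_mul] at this
      exact this
    have e3 : ((nTx (k + 2) k j t l' l c : ℕ) : ℝ) ≤ ((In j l' l : ℕ) : ℝ) := by exact_mod_cast e1
    refine e3.trans ?_
    rw [e2, zero_add]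
    apply Real.exp_le_exp.2
    have e4 : (((l - l') / 2 : ℕ) : ℝ) ≤ ((l - l' : ℕ) : ℝ) / 2 := Nat.cast_div_le
    have e5 := lam_le_pj j
    have e6 := lam_gt
    calc (((l - l') / 2 : ℕ) : ℝ) * Real.log (pj j) ≤ ((l - l' : ℕ) : ℝ) / 2 * Real.log (pj j) :=
          mul_le_mul_of_nonneg_right e4 (by linarith)
      _ = _ := by ring
  have hs : sb (k + 2) k j t l' l + 1 = t + 1 + (PN (k + 2) k j t l' l).h := by
    have e : (PN (k + 2) k j t l' l).h = hb (k + 2) k j t l' l := rfl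
    rw [e]
    unfold sb
    omega
  have hδ : 100 * dReg k j t l' l ≤ W (k + 2) j (t + 1 + (PN (k + 2) k j t l' l).h) := by
    unfold dReg
    rw [hs]
    have : (0 : ℝ) ≤ W (k + 2) j (t + 1 + (PN (k + 2) k j t l' l).h) := Nat.cast_nonneg _
    linarith
  have h7 : 7 * W (k + 2) j (t + 1 + (PN (k + 2) k j t l' l).h) ≤ 20 * (l - l') := by
    rw [← hs]
    exact hcase
  exact Pool.Agent.Helper87.SL.hL_near h hM hP hX le_rfl hL h7 hs hd' hera hR hR' hI hδ

end Pool.Agent.Helper87.NEAR
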